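import Mathlib
import Pool.Agent.L7h17.OC.Stm

/-! Project OC, part BAND: the set where a polynomial with simple zeros is nonnegative. -/

set_option autoImplicit false

namespace Pool.Agent.L7h69.OC

open Polynomial Pool.Agent.L7h17.OC Filter Topology

/-- a new first term -/
def cons' (u : ℝ) (a : ℕ → ℝ) : ℕ → ℝ
  | 0 => u
  | (j + 1) => a j

/-- bands beyond `c` -/
def BB (f : ℝ → ℝ) (c : ℝ) (q : ℕ) (a b : ℕ → ℝ) : Prop :=
  c ≤ a 0 ∧ (∀ j < q, c ≤ a j ∧ a j < b j) ∧ (∀ j, j + 1 < q → b j < a (j + 1)) ∧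
  (∀ t, c ≤ t → (0 ≤ f t ↔ ∃ j < q, a j ≤ t ∧ t ≤ b j)) ∧ (∀ j < q, f (b j) = 0) ∧
  (∀ j < q, a j = 0 ∨ f (a j) = 0) ∧ (∀ j, j + 1 < q → ∀ t, b j < t → t < a (j + 1) → f t < 0) ∧
  (0 < q → ∀ t, c ≤ t → t < a 0 → f t < 0)

lemma prepend {f : ℝ → ℝ} {c u v c' : ℝ} {q : ℕ} {a b : ℕ → ℝ} (h : BB f c' q a b)
    (hc' : f c' < 0) (hcu : c ≤ u) (huv : u < v) (hvc : v < c')
    (h1 : ∀ t, c ≤ t → t < u → f t < 0) (h2 : ∀ t, u ≤ t → t ≤ v → 0 ≤ f t)
    (h3 : ∀ t, v < t → t ≤ c' → f t < 0) (hv : f v = 0) (hu : u = 0 ∨ f u = 0) :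
    BB f c (q + 1) (cons' u a) (cons' v b) := by
  obtain ⟨_, g1, g2, g3, g4, g5, g6, g7⟩ := h
  have hs : ∀ j < q, c' < a j := by
    intro j hj
    rcases lt_or_eq_of_le (g1 j hj).1 with h | h
    · exact h
    · exfalso
      have := (g3 (a j) (g1 j hj).1).2 ⟨j, hj, le_refl _, (g1 j hj).2.le⟩
      rw [← h] at this
      linarith
  refine ⟨hcu, ?_, ?_, ?_, ?_, ?_, ?_, ?_⟩
  · intro j hj
    cases j with
    | zero => exact ⟨hcu, huv⟩
    | succ j =>
      have := g1 j (by omega)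
      exact ⟨by show c ≤ a j; linarith [this.1], this.2⟩
  · intro j hj
    cases j with
    | zero =>
      have := hs 0 (by omega)
      show v < a 0
      linarith
    | succ j => exact g2 j (by omega)
  · intro t ht
    constructor
    · intro h0
      rcases lt_or_ge t u with h | h
      · exact absurd h0 (not_le.2 (h1 t ht h))
      · rcases lt_or_ge v t with h' | h'
        · rcases lt_or_ge c' t with h'' | h''
          · obtain ⟨j, hj, h5, h6⟩ := (g3 t h''.le).1 h0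
            exact ⟨j + 1, by omega, h5, h6⟩
          · exact absurd h0 (not_le.2 (h3 t h' h''))
        · exact ⟨0, by omega, h, h'⟩
    · rintro ⟨j, hj, h5, h6⟩
      cases j with
      | zero => exact h2 t h5 h6
      | succ j =>
        have h7 : c' < a j := hs j (by omega)
        have h5' : a j ≤ t := h5
        exact (g3 t (by linarith)).2 ⟨j, by omega, h5', h6⟩
  · intro j hj
    cases j with
    | zero => exact hv
    | succ j => exact g4 j (by omega)
  · intro j hj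
    cases j with
    | zero => exact hu
    | succ j => exact g5 j (by omega)
  · intro j hj t ht1 ht2
    cases j with
    | zero =>
      have ht1' : v < t := ht1
      have ht2' : t < a 0 := ht2
      rcases lt_or_ge c' t with h | h
      · exact g7 (by omega) t h.le ht2'
      · exact h3 t ht1' h
    | succ j => exact g6 j (by omega) t ht1 ht2
  · intro _ t ht1 ht2
    exact h1 t ht1 ht2

/-- no zeros, so the sign is constant -/
lemma sgn_neg {f : ℝ → ℝ} (hf : Continuous f) {c w : ℝ} (hc : f c < 0)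
    (hz : ∀ t, c < t → t < w → f t ≠ 0) : ∀ t, c ≤ t → t < w → f t < 0 := by
  intro t h1 h2
  by_contra hcon
  push Not at hcon
  obtain ⟨s, hs1, hs2⟩ := intermediate_value_Icc h1 hf.continuousOn ⟨hc.le, hcon⟩
  have h3 : s ≠ c := by
    rintro rfl
    linarith
  exact hz s (lt_of_le_of_ne hs1.1 h3.symm) (lt_of_le_of_lt hs1.2 h2) hs2

lemma sgn_pos {f : ℝ → ℝ} (hf : Continuous f) {c w : ℝ} (hc : 0 < f c)
    (hz : ∀ t, c < t → t < w → f t ≠ 0) : ∀ t, c ≤ t → t < w → 0 < f t := by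
  intro t h1 h2
  have := sgn_neg hf.neg (c := c) (w := w) (by simpa using hc)
    (fun t h3 h4 h5 => hz t h3 h4 (by simpa using h5)) t h1 h2
  simpa using this

/-- local signs at a simple zero -/
lemma loc_pos (D : ℝ[X]) (w : ℝ) (hw : D.eval w = 0) (hd : 0 < D.derivative.eval w) :
    ∃ ε : ℝ, 0 < ε ∧ ∀ t, (w < t → t ≤ w + ε → 0 < D.eval t) ∧
      (w - ε ≤ t → t < w → D.eval t < 0) := by
  have h := (D.hasDerivAt w).tendsto_slope.eventually (lt_mem_nhds hd)
  rw [eventually_nhdsWithin_iff, Metric.eventually_nhds_iff] at h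
  obtain ⟨ε, hε, h⟩ := h
  refine ⟨ε / 2, by positivity, fun t => ⟨fun h1 h2 => ?_, fun h1 h2 => ?_⟩⟩
  · have h3 := h (y := t) (by rw [Real.dist_eq, abs_lt]; constructor <;> linarith)
      (by simpa using h1.ne')
    rw [slope_def_field, hw, sub_zero] at h3
    exact (div_pos_iff_of_pos_right (by linarith)).1 h3
  · have h3 := h (y := t) (by rw [Real.dist_eq, abs_lt]; constructor <;> linarith)
      (by simpa using h2.ne)
    rw [slope_def_field, hw, sub_zero] at h3
    by_contra hcon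
    push Not at hcon
    have := div_nonpos_of_nonneg_of_nonpos hcon (by linarith : t - w ≤ 0)
    linarith

lemma loc_neg (D : ℝ[X]) (w : ℝ) (hw : D.eval w = 0) (hd : D.derivative.eval w < 0) :
    ∃ ε : ℝ, 0 < ε ∧ ∀ t, (w < t → t ≤ w + ε → D.eval t < 0) ∧
      (w - ε ≤ t → t < w → 0 < D.eval t) := by
  obtain ⟨ε, hε, h⟩ := loc_pos (-D) w (by simp [hw]) (by simpa using hd)
  refine ⟨ε, hε, fun t => ⟨fun h1 h2 => ?_, fun h1 h2 => ?_⟩⟩
  · simpa using (h t).1 h1 h2
  · simpa using (h t).2 h1 h2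

lemma ev_neg (D : ℝ[X]) (hD : D.leadingCoeff < 0) : ∃ M : ℝ, ∀ t, M ≤ t → D.eval t < 0 := by
  by_cases hdeg : 0 < D.degree
  · have h := Polynomial.tendsto_atBot_of_leadingCoeff_nonpos D hdeg hD.le
    have h2 := h.eventually (eventually_lt_atBot 0)
    obtain ⟨M, hM⟩ := eventually_atTop.1 h2
    exact ⟨M, hM⟩
  · have h1 : D = C (D.coeff 0) := eq_C_of_degree_le_zero (not_lt.1 hdeg)
    refine ⟨0, fun t _ => ?_⟩
    rw [h1, leadingCoeff_C] at hD
    rw [h1, eval_C]
    exact hD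

section main

variable (D : ℝ[X])

/-- the zeros beyond `c` -/
noncomputable def ZZ (c : ℝ) : Finset ℝ := D.roots.toFinset.filter (c < ·)

variable {D}

lemma mem_ZZ (hD0 : D ≠ 0) {c z : ℝ} : z ∈ ZZ D c ↔ D.eval z = 0 ∧ c < z := by
  unfold ZZ
  rw [Finset.mem_filter, Multiset.mem_toFinset, mem_roots hD0]
  rfl

/-- the first zero beyond `c` -/
lemma first (hD0 : D ≠ 0) {c : ℝ} (h : (ZZ D c).Nonempty) : ∃ w, c < w ∧ D.eval w = 0 ∧
    ∀ t, c < t → t < w → D.eval t ≠ 0 := by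
  refine ⟨(ZZ D c).min' h, ((mem_ZZ hD0).1 (Finset.min'_mem _ h)).2,
    ((mem_ZZ hD0).1 (Finset.min'_mem _ h)).1, fun t h1 h2 h3 => ?_⟩
  have := Finset.min'_le (ZZ D c) t ((mem_ZZ hD0).2 ⟨h3, h1⟩)
  linarith

/-- there is a zero beyond a positive value -/
lemma nonempty_of_pos (hD0 : D ≠ 0) (hl : D.leadingCoeff < 0) {c : ℝ} (hc : 0 < D.eval c) :
    (ZZ D c).Nonempty := by
  obtain ⟨M, hM⟩ := ev_neg D hl
  have h1 : D.eval (max M (c + 1)) < 0 := hM _ (le_max_left _ _)
  have h2 : c ≤ max M (c + 1) := le_trans (by linarith) (le_max_right M (c + 1))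
  obtain ⟨s, hs1, hs2⟩ := intermediate_value_Icc' h2 D.continuous.continuousOn
    (⟨h1.le, hc.le⟩ : (0 : ℝ) ∈ Set.Icc (D.eval (max M (c + 1))) (D.eval c))
  refine ⟨s, (mem_ZZ hD0).2 ⟨hs2, lt_of_le_of_ne hs1.1 ?_⟩⟩
  rintro rfl
  simp only at hs2
  linarith

/-- after a positive stretch: the zero at its end and the negative stretch beyond -/
lemma after_pos (hD0 : D ≠ 0) (hs : ∀ t : ℝ, 0 < t → D.eval t = 0 → D.derivative.eval t ≠ 0)
    {s w : ℝ} (hs0 : 0 ≤ s) (hsw : s < w) (hpos : ∀ t, s < t → t < w → 0 < D.eval t)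
    (hw : D.eval w = 0) : ∃ c', w < c' ∧ (∀ t, w < t → t ≤ c' → D.eval t < 0) := by
  rcases lt_or_gt_of_ne (hs w (by linarith) hw) with hd | hd
  · obtain ⟨ε, hε, h⟩ := loc_neg D w hw hd
    exact ⟨w + ε, by linarith, fun t h1 h2 => (h t).1 h1 h2⟩
  · exfalso
    obtain ⟨ε, hε, h⟩ := loc_pos D w hw hd
    have h1 := (h (max ((s + w) / 2) (w - ε))).2 (le_max_right _ _)
      (max_lt (by linarith) (by linarith))
    have h2 := hpos (max ((s + w) / 2) (w - ε)) (lt_of_lt_of_le (by linarith) (le_max_left _ _))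
      (max_lt (by linarith) (by linarith))
    linarith

lemma after_neg (hD0 : D ≠ 0) (hs : ∀ t : ℝ, 0 < t → D.eval t = 0 → D.derivative.eval t ≠ 0)
    {s w : ℝ} (hs0 : 0 ≤ s) (hsw : s < w) (hneg : ∀ t, s ≤ t → t < w → D.eval t < 0)
    (hw : D.eval w = 0) : ∃ c', w < c' ∧ (∀ t, w < t → t ≤ c' → 0 < D.eval t) := by
  rcases lt_or_gt_of_ne (hs w (by linarith) hw) with hd | hd
  · exfalso
    obtain ⟨ε, hε, h⟩ := loc_neg D w hw hd
    have h1 := (h (max s (w - ε))).2 (le_max_right _ _) (max_lt hsw (by linarith))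
    have h2 := hneg (max s (w - ε)) (le_max_left _ _) (max_lt hsw (by linarith))
    linarith
  · obtain ⟨ε, hε, h⟩ := loc_pos D w hw hd
    exact ⟨w + ε, by linarith, fun t h1 h2 => (h t).1 h1 h2⟩

lemma rec (hD0 : D ≠ 0) (hl : D.leadingCoeff < 0)
    (hs : ∀ t : ℝ, 0 < t → D.eval t = 0 → D.derivative.eval t ≠ 0) :
    ∀ n : ℕ, ∀ c : ℝ, 0 ≤ c → D.eval c < 0 → (ZZ D c).card ≤ n →
      ∃ (q : ℕ) (a b : ℕ → ℝ), 2 * q ≤ n ∧ BB (fun t => D.eval t) c q a b := by
  intro n
  induction n using Nat.strong_induction_on with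
  | _ n ih =>
    intro c hc0 hc hcard
    rcases (ZZ D c).eq_empty_or_nonempty with hemp | hne
    · refine ⟨0, fun _ => c, fun _ => c, by omega, le_refl _, fun j hj => by omega,
        fun j hj => by omega, ?_, fun j hj => by omega, fun j hj => by omega,
        fun j hj => by omega, fun h => by omega⟩
      intro t ht
      have h1 := sgn_neg D.continuous (c := c) (w := t + 1) hc (fun s h1 _ h3 => by
        have : s ∈ ZZ D c := (mem_ZZ hD0).2 ⟨h3, h1⟩
        rw [hemp] at this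
        simp at this) t ht (by linarith)
      constructor
      · intro h
        have h' : 0 ≤ D.eval t := h
        linarith
      · rintro ⟨j, hj, _⟩
        omega
    · obtain ⟨w1, hw1, hz1, hn1⟩ := first hD0 hne
      have hneg := sgn_neg D.continuous hc hn1
      obtain ⟨c1, hc1, hp1⟩ := after_neg hD0 hs hc0 hw1 hneg hz1
      have hne2 : (ZZ D w1).Nonempty := by
        obtain ⟨z, hz⟩ := nonempty_of_pos hD0 hl (hp1 c1 hc1 le_rfl)
        rw [mem_ZZ hD0] at hz
        exact ⟨z, (mem_ZZ hD0).2 ⟨hz.1, hc1.trans hz.2⟩⟩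
      obtain ⟨w2, hw2, hz2, hn2⟩ := first hD0 hne2
      have hpos : ∀ t, w1 < t → t < w2 → 0 < D.eval t := by
        intro t h1 h2
        rcases le_or_gt t c1 with h | h
        · exact hp1 t h1 h
        · exact sgn_pos D.continuous (hp1 c1 hc1 le_rfl)
            (fun s h3 h4 => hn2 s (hc1.trans h3) h4) t h.le h2
      obtain ⟨c', hc', hng⟩ := after_pos hD0 hs (by linarith : (0 : ℝ) ≤ w1) hw2 hpos hz2
      have hsub : insert w1 (insert w2 (ZZ D c')) ⊆ ZZ D c := by
        intro z hz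
        rw [Finset.mem_insert, Finset.mem_insert] at hz
        rcases hz with rfl | rfl | hz
        · exact (mem_ZZ hD0).2 ⟨hz1, hw1⟩
        · exact (mem_ZZ hD0).2 ⟨hz2, hw1.trans hw2⟩
        · rw [mem_ZZ hD0] at hz ⊢
          exact ⟨hz.1, by linarith [hz.2]⟩
      have hcd := Finset.card_le_card hsub
      rw [Finset.card_insert_of_notMem, Finset.card_insert_of_notMem] at hcd
      rotate_left
      · rw [mem_ZZ hD0]
        rintro ⟨_, h⟩
        linarith
      · rw [Finset.mem_insert, mem_ZZ hD0]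
        rintro (h | ⟨_, h⟩) <;> linarith
      obtain ⟨q, a, b, hq, hB⟩ := ih (n - 2) (by omega) c' (by linarith) (hng c' hc' le_rfl)
        (by omega)
      refine ⟨q + 1, cons' w1 a, cons' w2 b, by omega,
        prepend hB (hng c' hc' le_rfl) hw1.le hw2 hc' hneg ?_ hng hz2 (Or.inr hz1)⟩
      intro t h1 h2
      show 0 ≤ D.eval t
      rcases lt_or_eq_of_le h1 with h1 | rfl
      · rcases lt_or_eq_of_le h2 with h2 | rfl
        · exact (hpos t h1 h2).le
        · exact hz2.ge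
      · exact hz1.ge

end main

theorem s_BAND : S_BAND := by
  intro D hdeg hl h0 hs
  have hD0 : D ≠ 0 := by
    rintro rfl
    simp at hl
  have hcard : ∀ c, (ZZ D c).card ≤ 8 := by
    intro c
    unfold ZZ
    exact (Finset.card_filter_le _ _).trans
      ((Multiset.toFinset_card_le _).trans ((card_roots' D).trans hdeg))
  have fin : ∀ (q : ℕ) (a b : ℕ → ℝ), q ≤ 4 → BB (fun t => D.eval t) 0 q a b →
      ∃ (q : ℕ) (a b : ℕ → ℝ), q ≤ 4 ∧ Band (fun t => D.eval t) q a b := by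
    rintro q a b hq ⟨g0, g1, g2, g3, g4, g5, g6, _⟩
    exact ⟨q, a, b, hq, ⟨g0, fun j hj => (g1 j hj).2, g2⟩, g3, g4, g5, g6⟩
  rcases lt_or_gt_of_ne h0 with hneg | hpos
  · obtain ⟨q, a, b, hq, hB⟩ := rec hD0 hl hs 8 0 le_rfl hneg (hcard 0)
    exact fin q a b (by omega) hB
  · obtain ⟨w1, hw1, hz1, hn1⟩ := first hD0 (nonempty_of_pos hD0 hl hpos)
    have hp := sgn_pos D.continuous hpos hn1
    obtain ⟨c', hc', hng⟩ := after_pos hD0 hs le_rfl hw1 (fun t h1 h2 => hp t h1.le h2) hz1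
    have hsub : insert w1 (ZZ D c') ⊆ ZZ D 0 := by
      intro z hz
      rw [Finset.mem_insert] at hz
      rcases hz with rfl | hz
      · exact (mem_ZZ hD0).2 ⟨hz1, hw1⟩
      · rw [mem_ZZ hD0] at hz ⊢
        exact ⟨hz.1, by linarith [hz.2]⟩
    have hcd := (Finset.card_le_card hsub).trans (hcard 0)
    rw [Finset.card_insert_of_notMem] at hcd
    swap
    · rw [mem_ZZ hD0]
      rintro ⟨_, h⟩
      linarith
    obtain ⟨q, a, b, hq, hB⟩ := rec hD0 hl hs 7 c' (by linarith) (hng c' hc' le_rfl) (by omega)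
    refine fin (q + 1) (cons' 0 a) (cons' w1 b) (by omega)
      (prepend hB (hng c' hc' le_rfl) le_rfl hw1 hc' (fun t h1 h2 => by linarith) ?_ hng hz1
        (Or.inl rfl))
    intro t h1 h2
    show 0 ≤ D.eval t
    rcases lt_or_eq_of_le h2 with h2 | rfl
    · exact (hp t h1 h2).le
    · exact hz1.ge

end Pool.Agent.L7h69.OC
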